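import Pool.Agent.H66.Oligo

set_option autoImplicit false

namespace Pool.Agent.Results.MP_fafee5_lc.Q1Yes
open Pool.Agent.H66.Oligo

/-- Q1: some closed transformation monoid has automatic continuity but not automatic
homeomorphicity. -/
theorem result :
    ∃ S : Submonoid (Function.End ℕ), Closed S ∧ AutCont S ∧ ¬ AutHomeo S :=
  ⟨S0, S0_closed, S0_autCont, S0_not⟩

end Pool.Agent.Results.MP_fafee5_lc.Q1Yes
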