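import Pool.Agent.H66.Oligo

set_option autoImplicit false

namespace Pool.Agent.Results.MP_fafee5_lc.Q2No
open Pool.Agent.H66.Oligo

/-- Q2: for closed oligomorphic transformation monoids, automatic continuity implies automatic
homeomorphicity. -/
theorem result :
    ∀ S : Submonoid (Function.End ℕ), Closed S → Oligo S → AutCont S → AutHomeo S :=
  fun S hS ho h T hT φ => ⟨h T hT φ.toMulHom, symm_cont hS ho φ (h T hT φ.toMulHom)⟩

end Pool.Agent.Results.MP_fafee5_lc.Q2No
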